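import Pool.Agent.helper37.NA.Spec

set_option autoImplicit false

namespace Pool.Agent.NAB

open Pool.Agent.helper58.DC Pool.Agent.DI Pool.Agent.GR Pool.Agent.OB Pool.Agent.DR Pool.Agent.FI Pool.Agent.FI3 Pool.Agent.FI4 Pool.Agent.FI4I Pool.Agent.LE Pool.Agent.L5

theorem NBC_cjF {G : Type} [Group G] (l : G) (η : G → ℂ) : cjF l⁻¹ (cjF l η) = η := by
  funext x
  rw [cjF_apply, cjF_apply]
  congr 1
  group

theorem NBC_cjF' {G : Type} [Group G] (l : G) (η : G → ℂ) : cjF l (cjF l⁻¹ η) = η := by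
  funext x
  rw [cjF_apply, cjF_apply]
  congr 1
  group

theorem NBC_cjS {G : Type} [Group G] (l : G) (K : Subgroup G) : cjS l⁻¹ (cjS l K) = K := by
  ext x
  rw [mem_cjS, mem_cjS]
  have h : l⁻¹ * (l⁻¹⁻¹ * x * l⁻¹) * l = x := by group
  rw [h]

theorem NBC_map (hNEG : NEG_stmt) (hNUB : NUB_stmt) (hCJG : CJG_stmt) {p e m : ℕ} {M : Ideal (integralClosure ℤ ℂ)}
    (hS : Setup p M) (hp : p.Prime) {G : Type} [Group G] [Finite G] {L K E : Subgroup G} {ψ η : G → ℂ} {l : G} (hl : l ∈ L)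
    (h : η ∈ BE p e m M L K E ψ) : cjF l η ∈ BE p e m M L (cjS l K) (cjS l E) ψ := by
  obtain ⟨h1, h2, z, x, h3, h4⟩ := h
  refine ⟨(hCJG G M p l K).1 η h1, ?_, l * z * l⁻¹, l * x * l⁻¹, ?_, ?_⟩
  · exact (((hCJG G M p l L).2.2.2.2.2.1 hl η).1).trans h2
  · exact (hNUB p e m M hS G K η z x h3).2.1 l
  · rw [(hNEG p e hp G z).1 l, h4]

theorem NBC (hNEG : NEG_stmt) (hNUB : NUB_stmt) (hCJG : CJG_stmt) (hQCJ : QCJ_stmt) (hTRN : Pool.Agent.FI.TRN_stmt) (hB2 : B2_stmt) : NBC_stmt := by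
  intro p e m M hS G _ _ L K E hKL ψ
  have hp : p.Prime := hS.pr
  refine ⟨?_, ?_, ?_⟩
  · intro l hl
    symm
    unfold lE
    refine finsum_mem_eq_of_bijOn (cjF l) ⟨?_, ?_, ?_⟩ ?_
    · intro η hη
      exact NBC_map hNEG hNUB hCJG hS hp hl hη
    · intro η _ η' _ he
      have h1 := congrArg (cjF l⁻¹) he
      rw [NBC_cjF, NBC_cjF] at h1
      exact h1
    · intro η hη
      refine ⟨cjF l⁻¹ η, ?_, NBC_cjF' l η⟩
      have h1 := NBC_map hNEG hNUB hCJG hS hp (L.inv_mem hl) hη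
      rw [NBC_cjS, NBC_cjS] at h1
      exact h1
    · intro η _
      exact ((hQCJ G l K).1 p η η).symm
  · intro φ hφ
    ext η
    constructor
    · rintro ⟨h1, h2, h3⟩
      exact ⟨h1, h2.trans hφ, h3⟩
    · rintro ⟨h1, h2, h3⟩
      exact ⟨h1, h2.trans hφ.symm, h3⟩
  · refine ⟨fun η hη => hη.1, ?_⟩
    rintro η ⟨h1, h2, z, x, h3, h4⟩ η' hη' hc
    have h5 : SB M K η η' := hc
    have h6 : SB M L η η' := (hTRN G M K L hKL η η' ψ (fun y hy => ((hB2 G K).2 η h1).2.2.2.1 y hy)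
      (fun y hy => ((hB2 G K).2 η' hη').2.2.2.1 y hy) h5).1
    exact ⟨hη', h6.symm.trans h2, z, x, (hNUB p e m M hS G K η z x h3).1 η' h5, h4⟩

end Pool.Agent.NAB
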