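import Pool.Agent.helper97.NA.SpecE

set_option autoImplicit false

namespace Pool.Agent.NAB

open Pool.Agent.helper58.DC Pool.Agent.DI Pool.Agent.GR Pool.Agent.OB Pool.Agent.DR Pool.Agent.FI Pool.Agent.FI3 Pool.Agent.FI4 Pool.Agent.FI4I Pool.Agent.FI4E Pool.Agent.LE Pool.Agent.L5

/-- iterated sums -/
theorem XLC_iter {α γ : Type} (X : α → Set γ) (v : α × γ → ℂ)
    (hfin : ({b : α × γ | b.2 ∈ X b.1}).Finite) :
    ∑ᶠ b ∈ {b : α × γ | b.2 ∈ X b.1}, v b = ∑ᶠ i, ∑ᶠ y ∈ X i, v (i, y) := by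
  classical
  rw [finsum_mem_def, finsum_curry]
  · apply finsum_congr
    intro i
    rw [finsum_mem_def]
    apply finsum_congr
    intro y
    by_cases h : y ∈ X i
    · have h' : (i, y) ∈ {b : α × γ | b.2 ∈ X b.1} := h
      rw [Set.indicator_of_mem h, Set.indicator_of_mem h']
    · have h' : (i, y) ∉ {b : α × γ | b.2 ∈ X b.1} := h
      rw [Set.indicator_of_notMem h, Set.indicator_of_notMem h']
  · exact hfin.subset Set.support_indicator_subset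

/-- iterated sums with conditions -/
theorem XLC_iter3 {α γ δ : Type} (P : Set α) (Q : α → Set γ) (X : α → γ → Set δ) (v : α × (γ × δ) → ℂ)
    (hfin : ({b : α × (γ × δ) | b.1 ∈ P ∧ b.2.1 ∈ Q b.1 ∧ b.2.2 ∈ X b.1 b.2.1}).Finite) :
    ∑ᶠ b ∈ {b : α × (γ × δ) | b.1 ∈ P ∧ b.2.1 ∈ Q b.1 ∧ b.2.2 ∈ X b.1 b.2.1}, v b =
      ∑ᶠ i ∈ P, ∑ᶠ j ∈ Q i, ∑ᶠ y ∈ X i j, v (i, (j, y)) := by
  classical
  have h1 := XLC_iter (fun i : α => {c : γ × δ | i ∈ P ∧ c.1 ∈ Q i ∧ c.2 ∈ X i c.1}) v hfin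
  refine h1.trans ?_
  rw [finsum_mem_def P]
  refine finsum_congr fun i => ?_
  by_cases hi : i ∈ P
  · rw [Set.indicator_of_mem hi]
    have hfi : ({c : γ × δ | c.2 ∈ (fun j : γ => {y : δ | j ∈ Q i ∧ y ∈ X i j}) c.1}).Finite := by
      have h2 : (fun c : γ × δ => ((i, c) : α × (γ × δ))) ⁻¹' {b : α × (γ × δ) | b.1 ∈ P ∧ b.2.1 ∈ Q b.1 ∧ b.2.2 ∈ X b.1 b.2.1} =
          {c : γ × δ | c.2 ∈ (fun j : γ => {y : δ | j ∈ Q i ∧ y ∈ X i j}) c.1} := by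
        ext c
        exact ⟨fun h => h.2, fun h => ⟨hi, h⟩⟩
      rw [← h2]
      exact hfin.preimage (fun a _ b _ h => (Prod.mk.inj h).2)
    have h3 := XLC_iter (fun j : γ => {y : δ | j ∈ Q i ∧ y ∈ X i j}) (fun c => v (i, c)) hfi
    have h4 : {c : γ × δ | i ∈ P ∧ c.1 ∈ Q i ∧ c.2 ∈ X i c.1} = {c : γ × δ | c.2 ∈ (fun j : γ => {y : δ | j ∈ Q i ∧ y ∈ X i j}) c.1} := by
      ext c
      exact ⟨fun h => h.2, fun h => ⟨hi, h⟩⟩
    rw [h4]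
    refine h3.trans ?_
    rw [finsum_mem_def (Q i)]
    refine finsum_congr fun j => ?_
    by_cases hj : j ∈ Q i
    · rw [Set.indicator_of_mem hj]
      have h5 : {y : δ | j ∈ Q i ∧ y ∈ X i j} = X i j := by
        ext y
        exact ⟨fun h => h.2, fun h => ⟨hj, h⟩⟩
      rw [h5]
    · rw [Set.indicator_of_notMem hj]
      have h5 : {y : δ | j ∈ Q i ∧ y ∈ X i j} = ∅ := by
        ext y
        exact ⟨fun h => hj h.1, fun h => h.elim⟩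
      rw [h5, finsum_mem_empty]
  · rw [Set.indicator_of_notMem hi]
    have h5 : {c : γ × δ | i ∈ P ∧ c.1 ∈ Q i ∧ c.2 ∈ X i c.1} = ∅ := by
      ext y
      exact ⟨fun h => hi h.1, fun h => h.elim⟩
    rw [h5, finsum_mem_empty]

theorem XLC_cc {G : Type} [Group G] (k : G) (E : Subgroup G) : cjS k⁻¹ (cjS k E) = E := by
  ext x
  rw [mem_cjS, mem_cjS]
  have h : k⁻¹ * (k⁻¹⁻¹ * x * k⁻¹) * k = x := by group
  rw [h]

theorem XLC_cN {G : Type} [Group G] {k : G} {N : Subgroup G} (hk : k ∈ N) : cjS k N = N := by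
  ext x
  rw [mem_cjS]
  constructor
  · intro h
    have h2 := N.mul_mem (N.mul_mem hk h) (N.inv_mem hk)
    have h3 : k * (k⁻¹ * x * k) * k⁻¹ = x := by group
    rwa [h3] at h2
  · intro h
    exact N.mul_mem (N.mul_mem (N.inv_mem hk) h) hk

theorem XLC (hXPB : XPB_stmt) (hXTI : XTI_stmt) (hXTC : XTC_stmt) (hXUS : XUS_stmt) (hXUA : XUA_stmt) (hXTB : XTB_stmt) (hXOU : XOU_stmt) (hNUH : NUH_stmt) (hNUX : NUX_stmt) (hNUB : NUB_stmt) (hNUE : NUE_stmt) (hTSI : TSI_stmt) (hBAA : BAA_stmt) (hTRN : Pool.Agent.FI.TRN_stmt) (hTPR : Pool.Agent.FI.TPR_stmt) (hB2 : B2_stmt) : XLC_stmt := by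
  intro p e m n M hM hme G _ _ χ hχ z x hU N hN β hβ hβn
  have tpr := hTPR p M hM G
  have hBlk : Blk M χ N = Bq M ⊤ N χ := tpr.2.2.2.1 χ N
  have hvan : ∀ (K : Subgroup G) (φ : G → ℂ), φ ∈ IrrOn K → K ≤ N → ∀ x, x ∉ N → φ x = 0 :=
    fun K φ hφ hK x hx => hφ.1 x fun h => hx (hK h)
  have htr : ∀ (K : Subgroup G) (φ ψ : G → ℂ), φ ∈ IrrOn K → K ≤ N → ψ ∈ IrrOn N → SB M N φ ψ →
      (SB M ⊤ ψ χ ↔ SB M ⊤ φ χ) := fun K φ ψ hφ hK hψ h =>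
    (hTRN G M N ⊤ le_top φ ψ χ (hvan K φ hφ hK) (hvan N ψ hψ le_rfl) h).2
  set A : Set (G → ℂ) := Blk M χ N with hA
  have hAmem : ∀ φ, φ ∈ A ↔ φ ∈ IrrOn N ∧ SB M ⊤ φ χ := fun φ => by
    rw [hBlk]
    exact Iff.rfl
  have hfinI : ∀ K : Subgroup G, (IrrOn K).Finite := fun K => (hB2 G K).1
  -- the index sets
  let Q : G → Set (Subgroup G) := fun k => {E' : Subgroup G | am (al β k) E' = E'}
  let T : Subgroup G → (G → ℂ) → Set (G × (Subgroup G × (G → ℂ))) := fun L ψ =>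
    {b | b.1 ∈ (N : Set G) ∧ b.2.1 ∈ Q b.1 ∧ b.2.2 ∈ (fun (_ : G) (E' : Subgroup G) => BE p e m M L (N ⊓ nz E') E' ψ) b.1 b.2.1}
  have hfin : ∀ (L : Subgroup G) (ψ : G → ℂ), (T L ψ).Finite := by
    intro L ψ
    apply ((Set.finite_univ (α := G)).prod ((Set.finite_univ (α := Subgroup G)).prod
      (Set.finite_iUnion fun E' : Subgroup G => hfinI (N ⊓ nz E')))).subset
    rintro ⟨k, E', η⟩ ⟨_, _, hη⟩
    exact ⟨trivial, trivial, Set.mem_iUnion.2 ⟨E', hη.1⟩⟩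
  let v : G × (Subgroup G × (G → ℂ)) → ℂ := fun b => EE p (N ⊓ nz b.2.1) (funMap (al β b.1) b.2.2) b.2.2
  have hsum : ∀ (L : Subgroup G) (ψ : G → ℂ), ∑ᶠ b ∈ T L ψ, v b =
      ∑ᶠ k ∈ (N : Set G), ∑ᶠ E' ∈ {E' : Subgroup G | am (al β k) E' = E'}, tB p e m M L (N ⊓ nz E') E' ψ (al β k) := by
    intro L ψ
    exact XLC_iter3 (N : Set G) Q (fun (_ : G) (E' : Subgroup G) => BE p e m M L (N ⊓ nz E') E' ψ) v (hfin L ψ)
  -- the classes of `N`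
  have hcl : ∀ φ ∈ A, {φ' | φ' ∈ A ∧ SB M N φ φ'} = Bl M N φ := by
    intro φ hφ
    have hφ' := (hAmem φ).1 hφ
    ext ψ
    constructor
    · rintro ⟨h1, h2⟩
      exact ⟨((hAmem ψ).1 h1).1, h2.symm⟩
    · rintro ⟨h1, h2⟩
      exact ⟨(hAmem ψ).2 ⟨h1, (htr N φ ψ hφ'.1 le_rfl h1 h2.symm).2 hφ'.2⟩, h2.symm⟩
  have hamN : ∀ k ∈ N, am (al β k) N = N := by
    intro k hk
    rw [am_al, hβ, XLC_cN hk]
  have key := hXPB (G → ℂ) (G × (Subgroup G × (G → ℂ))) A (T ⊤ χ)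
    ((hfinI N).subset fun φ hφ => ((hAmem φ).1 hφ).1) (hfin ⊤ χ)
    (fun φ => EE p N (funMap β φ) φ) v (Nat.card N : ℂ) (fun φ φ' => SB M N φ φ') (fun b φ => SB M N b.2.2 φ) ?_ ?_ ?_ ?_ ?_ ?_
  · have h1 : tL p M χ N β = ∑ᶠ φ ∈ A, EE p N (funMap β φ) φ := rfl
    rw [h1, ← key, hsum ⊤ χ]
  · rintro ⟨k, E', η⟩ ⟨_, _, h1, h2, z', x', h3, h4⟩
    obtain ⟨ψ, hψ, h5⟩ := hNUX p e m M hM G N E' η h1 z' x' h3 h4
    exact ⟨ψ, (hAmem ψ).2 ⟨hψ, (htr (N ⊓ nz E') η ψ h1 inf_le_left hψ h5).2 h2⟩, h5⟩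
  · intro φ
    exact SB.refl N φ
  · intro φ φ' h
    exact h.symm
  · intro φ φ' φ'' h h'
    exact h.trans h'
  · intro b _ φ _ φ' _ h
    exact ⟨fun h' => h.symm.trans h', fun h' => h.trans h'⟩
  · intro φ hφ
    have hφ' := (hAmem φ).1 hφ
    have h3 : {b | b ∈ T ⊤ χ ∧ SB M N b.2.2 φ} = T N φ := by
      ext b
      constructor
      · rintro ⟨⟨h1, h2, h4, h5, h6⟩, h7⟩
        exact ⟨h1, h2, h4, h7, h6⟩
      · rintro ⟨h1, h2, h4, h5, h6⟩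
        exact ⟨⟨h1, h2, h4, (htr _ b.2.2 φ h4 inf_le_left hφ'.1 h5).1 hφ'.2, h6⟩, h5⟩
    have h4 : ∑ᶠ a' ∈ {a' | a' ∈ A ∧ SB M N φ a'}, EE p N (funMap β a') a' = tE p M N φ β := by
      rw [hcl φ hφ]
      rfl
    show ∑ᶠ b ∈ {b | b ∈ T ⊤ χ ∧ SB M N b.2.2 φ}, v b =
        (Nat.card N : ℂ) * ∑ᶠ a' ∈ {a' | a' ∈ A ∧ SB M N φ a'}, EE p N (funMap β a') a'
    rw [h4, h3]
    by_cases hst : SB M N (funMap β φ) φ
    · -- stable block
      rw [hsum N φ]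
      obtain ⟨l, -, hl⟩ := hNUH p e m M hM G ⊤ N le_top φ hφ'.1 χ z x hφ'.2 hU
      have hxua := hXUA p e m M hM G β
      have h5 := hxua.2.1 N φ _ _ hl
      rw [hβ] at h5
      have h6 := (hNUB p e m M hM G N _ _ _ h5).1 φ hst
      obtain ⟨k₁, hk₁, h7⟩ := hNUE p e m M hM hme G N φ hφ'.1 _ _ _ _ hl h6
      rw [hxua.1] at h7
      set E₁ := Eg p e (l * z * l⁻¹) with hE₁
      have hk₁' : k₁⁻¹ ∈ N := N.inv_mem hk₁
      have hb1 : am (al β k₁⁻¹) E₁ = E₁ := by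
        rw [am_al, h7, XLC_cc]
      have hb2 := hamN _ hk₁'
      have hb3 := (hTSI p G N β hβ _ hk₁').1 φ hφ'.1
      have hst' : SB M N (funMap (al β k₁⁻¹) φ) φ := by
        rw [hb3]
        exact hst
      have hn' : ∃ y ∈ N, (al β k₁⁻¹) ^ n = MulAut.conj y := by
        obtain ⟨y, hy, hy2⟩ := hβn
        exact hXOU G N β n hβ y hy hy2 _ hk₁'
      have h8 := hXTI p e m n M hM G N hN φ hφ'.1 _ _ hl (al β k₁⁻¹) hb2 hb1 hst' hn'
      have h9 := hXTC p e m M hM hme G N φ hφ'.1 _ _ hl (al β k₁⁻¹) hb2 hb1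
      have h10 : tE p M N φ (al β k₁⁻¹) = tE p M N φ β :=
        (hTSI p G N β hβ _ hk₁').2 (Bl M N φ) (fun ψ hψ => hψ.1)
      rw [← h10, h8, ← h9]
      symm
      refine finsum_mem_eq_of_bijOn (fun k => k * k₁⁻¹) ⟨?_, ?_, ?_⟩ ?_
      · intro k hk
        exact N.mul_mem hk hk₁'
      · intro a _ b _ hab
        exact mul_right_cancel hab
      · intro k hk
        refine ⟨k * k₁, N.mul_mem hk hk₁, ?_⟩
        show k * k₁ * k₁⁻¹ = k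
        group
      · intro k _
        rw [al_al]
    · -- the block is not stable
      have hL : ∑ᶠ b ∈ T N φ, v b = 0 := by
        refine finsum_mem_eq_zero_of_forall_eq_zero ?_
        rintro ⟨k, E', η⟩ ⟨hk, hE', h5, h6, h7⟩
        have hk' : k ∈ N := hk
        have hE'' : am (al β k) E' = E' := hE'
        have b1 := (hBAA G M p (al β k) N (nz E') N η η χ).1
        have b2 := (hBAA G M p (al β k) E' N N η η χ).1
        refine hXUS p M hM G N (N ⊓ nz E') inf_le_left (al β k) ?_ (hamN k hk') φ ?_ η h5 h6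
        · rw [b1.2.2.2.1, hamN k hk', ← b2.2.1, hE'']
        · rw [(hTSI p G N β hβ k hk').1 φ hφ'.1]
          exact hst
      have hR : tE p M N φ β = 0 := by
        show ∑ᶠ ψ ∈ Bl M N φ, EE p N (funMap β ψ) ψ = 0
        refine finsum_mem_eq_zero_of_forall_eq_zero ?_
        intro ψ hψ
        exact hXUS p M hM G N N le_rfl β hβ hβ φ hst ψ hψ.1 hψ.2
      rw [hL, hR, mul_zero]

end Pool.Agent.NAB
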